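import Pool.Agent.Helper75.PZ.GoalsC

/-!
# A slowly decreasing positive function
-/

namespace Pool.Agent.Helper20.PZ

open Finset Filter Topology Pool.Agent.Helper75.PZ

theorem dfn : P_DFN := by
  intro h hm hpos hle hns
  -- the heights, the slopes, the breakpoints
  set v : ℕ → ℝ := fun n => (1 / 2 : ℝ) ^ n with hv
  have v_pos : ∀ n, 0 < v n := fun n => by simp only [hv]; positivity
  set a : ℕ → ℝ := fun n => if n = 0 then 2 else 4 * h (v (n - 1)) with ha
  have a_zero : a 0 = 2 := by simp [ha]
  have a_succ : ∀ n, a (n + 1) = 4 * h (v n) := fun n => by simp [ha]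
  have v_anti : ∀ n, v (n + 1) ≤ v n := fun n => by
    simp only [hv, pow_succ]
    have : (0 : ℝ) < (1 / 2 : ℝ) ^ n := by positivity
    linarith
  have a_anti : ∀ n, a (n + 1) ≤ a n := by
    intro n
    cases n with
    | zero =>
      have h1 : a (0 + 1) = 4 * h (v 0) := a_succ 0
      have h2 : h (v 0) ≤ 1 / 2 := hle (v 0)
      rw [h1, a_zero]
      generalize h (v 0) = z at h2 ⊢
      linarith
    | succ n =>
      rw [a_succ, a_succ]
      have := hm (v_anti n)
      linarith
  have a_pos : ∀ n, 0 < a n := by
    intro n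
    cases n with
    | zero => rw [a_zero]; norm_num
    | succ n =>
      rw [a_succ]
      have := hpos (v n) (v_pos n)
      linarith
  have a_le : ∀ n, a n ≤ 2 := by
    intro n
    induction n with
    | zero => exact le_of_eq a_zero
    | succ n ih => exact (a_anti n).trans ih
  set t : ℕ → ℝ := fun n => ∑ i ∈ range n, (1 / 8 : ℝ) * ((1 / 2 : ℝ) ^ i / h ((1 / 2) ^ i))
    with ht
  have t_zero : t 0 = 0 := by simp [ht]
  have t_succ : ∀ n, t (n + 1) = t n + (1 / 8 : ℝ) * ((1 / 2 : ℝ) ^ n / h ((1 / 2) ^ n)) := by
    intro n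
    simp only [ht, sum_range_succ]
  have term_nonneg : ∀ i : ℕ, 0 ≤ (1 / 2 : ℝ) ^ i / h ((1 / 2) ^ i) := fun i => by
    have := hpos (v i) (v_pos i)
    have h2 : 0 < h ((1 / 2) ^ i) := this
    positivity
  have t_mono : Monotone t := by
    refine monotone_nat_of_le_succ fun n => ?_
    rw [t_succ]
    have := term_nonneg n
    linarith
  have t_top : Tendsto t atTop atTop := by
    have h1 := (not_summable_iff_tendsto_nat_atTop_of_nonneg term_nonneg).1 hns
    have h2 : t = fun n => (1 / 8 : ℝ) * ∑ i ∈ range n, (1 / 2 : ℝ) ^ i / h ((1 / 2) ^ i) := by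
      funext n
      simp only [ht, mul_sum]
    rw [h2]
    exact h1.const_mul_atTop (by norm_num)
  have ex : ∀ s : ℝ, ∃ n, s < t n := fun s => by
    obtain ⟨n, hn⟩ := (t_top.eventually_gt_atTop s).exists
    exact ⟨n, hn⟩
  -- the lines
  set L : ℕ → ℝ → ℝ := fun n s => v n - a n * (s - t n) with hL
  have L_succ : ∀ n s, L (n + 1) s = v n - a (n + 1) * (s - t n) := by
    intro n s
    simp only [hL]
    rw [t_succ, a_succ]
    have h1 : 0 < h (v n) := hpos _ (v_pos n)
    have h2 : v (n + 1) = v n / 2 := by simp only [hv, pow_succ]; ring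
    have h3 : (1 / 8 : ℝ) * ((1 / 2 : ℝ) ^ n / h ((1 / 2) ^ n)) = (1 / 8 : ℝ) * (v n / h (v n)) := rfl
    rw [h3, h2]
    have h4 : 4 * h (v n) * ((1 / 8 : ℝ) * (v n / h (v n))) = v n / 2 := by
      field_simp
      ring
    linear_combination h4
  have up : ∀ n s, t n ≤ s → L n s ≤ L (n + 1) s := by
    intro n s hs
    rw [L_succ]
    simp only [hL]
    have := a_anti n
    nlinarith
  have down : ∀ n s, s ≤ t n → L (n + 1) s ≤ L n s := by
    intro n s hs
    rw [L_succ]
    simp only [hL]
    have := a_anti n
    nlinarith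
  classical
  set N : ℝ → ℕ := fun s => Nat.find (ex s) with hN
  have N_lt : ∀ s, s < t (N s) := fun s => Nat.find_spec (ex s)
  have N_min : ∀ s n, n < N s → t n ≤ s := fun s n hn => not_lt.1 (Nat.find_min (ex s) hn)
  -- the line `N s` is the largest one between `s` and `t (N s)`
  have dom : ∀ s s' m, s ≤ s' → s' ≤ t (N s) → L m s' ≤ L (N s) s' := by
    intro s s' m h1 h2
    rcases le_total m (N s) with h3 | h3
    · have key : ∀ j, m ≤ j → j ≤ N s → L m s' ≤ L j s' := by
        intro j hj
        induction j, hj using Nat.le_induction with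
        | base => intro _; exact le_rfl
        | succ j hj ih =>
          intro hj2
          exact (ih (by omega)).trans (up j s' ((N_min s j (by omega)).trans h1))
      exact key (N s) h3 le_rfl
    · have key : ∀ j, N s ≤ j → L j s' ≤ L (N s) s' := by
        intro j hj
        induction j, hj using Nat.le_induction with
        | base => exact le_rfl
        | succ j hj ih => exact (down j s' (h2.trans (t_mono hj))).trans ih
      exact key m h3
  have dom0 : ∀ s m, L m s ≤ L (N s) s := fun s m => dom s s m le_rfl (N_lt s).le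
  have anti : ∀ s s', s ≤ s' → L (N s') s' ≤ L (N s) s := by
    intro s s' hs
    refine le_trans ?_ (dom0 s (N s'))
    simp only [hL]
    have := a_pos (N s')
    nlinarith
  have lip : ∀ s s', s ≤ s' → L (N s) s ≤ L (N s') s' + 2 * (s' - s) := by
    intro s s' hs
    have h1 : L (N s) s' ≤ L (N s') s' := dom0 s' (N s)
    have h2 : L (N s) s = L (N s) s' + a (N s) * (s' - s) := by
      simp only [hL]; ring
    rw [h2]
    have := a_le (N s)
    nlinarith
  refine ⟨fun s => L (N s) s, fun s => ?_, fun s s' hs => anti s s' hs, fun s s' => ?_,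
    fun s => ⟨t (N s) - s, by have := N_lt s; linarith, fun δ h0 h1 => ?_⟩⟩
  · show 0 < v (N s) - a (N s) * (s - t (N s))
    have h1 := v_pos (N s)
    have h2 := a_pos (N s)
    have h3 := N_lt s
    nlinarith
  · rcases le_total s s' with hs | hs
    · have h1 := anti s s' hs
      have h2 := lip s s' hs
      rw [abs_of_nonneg (by linarith), abs_sub_comm, abs_of_nonneg (by linarith)]
      linarith
    · have h1 := anti s' s hs
      have h2 := lip s' s hs
      rw [abs_sub_comm, abs_of_nonneg (by linarith), abs_of_nonneg (by linarith)]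
      linarith
  · show L (N (s + δ)) (s + δ) ≤ L (N s) s - 4 * h (L (N s) s) * δ
    have h2 : L (N (s + δ)) (s + δ) ≤ L (N s) (s + δ) :=
      dom s (s + δ) _ (by linarith) (by linarith)
    have h3 : L (N s) (s + δ) = L (N s) s - a (N s) * δ := by
      simp only [hL]; ring
    have h4 : 4 * h (L (N s) s) ≤ a (N s) := by
      rcases Nat.eq_zero_or_pos (N s) with h5 | h5
      · rw [h5, a_zero]
        have := hle (L 0 s)
        linarith
      · obtain ⟨n, hn⟩ : ∃ n, N s = n + 1 := ⟨N s - 1, by omega⟩
        rw [hn, a_succ]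
        have h6 : t n ≤ s := N_min s n (by omega)
        have h7 : L (n + 1) s ≤ v n := by
          rw [L_succ]
          have := a_pos (n + 1)
          nlinarith
        have := hm h7
        linarith
    have h5 : 4 * h (L (N s) s) * δ ≤ a (N s) * δ := mul_le_mul_of_nonneg_right h4 h0
    linarith

end Pool.Agent.Helper20.PZ
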